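import Mathlib
import Pool.Agent.H.MP_94c136_al.Main

set_option autoImplicit false

namespace Pool.Agent.Results.MP_94c136_al.Q1

open Pool.Agent.H.MP_94c136_al

theorem result : ∃ G : Subgroup (Equiv.Perm ℕ), IsClosed (G : Set (Equiv.Perm ℕ)) ∧
    (∀ n : ℕ, Finite (MulAction.orbitRel.Quotient G (Fin n → ℕ))) ∧ ¬ CompactSpace (Out G) :=
  ⟨G, closed, oligo, ncp⟩

end Pool.Agent.Results.MP_94c136_al.Q1
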